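import Pool.Agent.FTU.Stmts

/-!
# Row NRM of squad FTU: the inverse square root of the norm, up to order `M`
-/

set_option autoImplicit false

noncomputable section

namespace Pool.Agent.FTU.H37

open MvPolynomial Pool.Agent.FTU

theorem nrm (h1 : CjaStmt) (h2 : CjbStmt) : NrmStmt := by
  obtain ⟨-, cC, cxe, -⟩ := h1
  obtain ⟨-, -, -, hxe, -⟩ := h2
  have hC : ∀ a : ℂ, (C a : RR) ∈ Jt := fun a => Jt.algebraMap_mem a
  have c4 : (C (1 / 4 : ℂ) : RR) * 4 = 1 := by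
    rw [show (4 : RR) = C (4 : ℂ) from (map_ofNat C 4).symm, ← C_mul]
    norm_num
  have c2 : (C (1 / 2 : ℂ) : RR) = 2 * C (1 / 4 : ℂ) := by
    rw [show (2 : RR) = C (2 : ℂ) from (map_ofNat C 2).symm, ← C_mul]
    norm_num
  have cj2 : cj (C (1 / 2 : ℂ)) = C (1 / 2 : ℂ) := by
    rw [cC, map_div₀, map_one, map_ofNat]
  have cj4 : cj (C (1 / 4 : ℂ)) = C (1 / 4 : ℂ) := by
    rw [cC, map_div₀, map_one, map_ofNat]
  intro M j k hj hk hck hjk
  have main : ∀ m : ℕ, ∃ kap k' r : RR, kap ∈ Jt ∧ cj kap = kap ∧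
      r ∈ Jt ∧ cj r = r ∧ kap = 1 + xe * k' ∧ kap ^ 2 * j = 1 + xe ^ (m + 1) * r := by
    intro m
    induction m with
    | zero =>
      refine ⟨1, 0, k, Jt.one_mem, map_one _, hk, hck, by ring, ?_⟩
      rw [hjk]
      ring
    | succ m ih =>
      obtain ⟨kap, k', r, hkap, hckap, hr, hcr, hk', heq⟩ := ih
      refine ⟨kap * (1 - C (1 / 2 : ℂ) * xe ^ (m + 1) * r),
        k' - C (1 / 2 : ℂ) * xe ^ m * r * (1 + xe * k'),
        xe ^ m * (-(3 * C (1 / 4 : ℂ)) * r ^ 2 + C (1 / 4 : ℂ) * xe ^ (m + 1) * r ^ 3),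
        ?_, ?_, ?_, ?_, ?_, ?_⟩
      · exact Jt.mul_mem hkap (Jt.sub_mem Jt.one_mem
          (Jt.mul_mem (Jt.mul_mem (hC _) (Jt.pow_mem hxe _)) hr))
      · rw [map_mul, map_sub, map_one, map_mul, map_mul, map_pow, cj2, cxe, hckap, hcr]
      · refine Jt.mul_mem (Jt.pow_mem hxe _) (Jt.add_mem ?_ ?_)
        · exact Jt.mul_mem (Jt.neg_mem (Jt.mul_mem (by
            rw [show (3 : RR) = C (3 : ℂ) from (map_ofNat C 3).symm]
            exact hC _) (hC _))) (Jt.pow_mem hr _)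
        · exact Jt.mul_mem (Jt.mul_mem (hC _) (Jt.pow_mem hxe _)) (Jt.pow_mem hr _)
      · simp only [map_mul, map_add, map_neg, map_pow, cj4, cxe, hcr, map_ofNat]
      · rw [hk']
        ring
      · have e1 : (kap * (1 - C (1 / 2 : ℂ) * xe ^ (m + 1) * r)) ^ 2 * j =
            (kap ^ 2 * j) * (1 - C (1 / 2 : ℂ) * xe ^ (m + 1) * r) ^ 2 := by ring
        rw [e1, heq, c2]
        generalize (C (1 / 4 : ℂ) : RR) = q at c4 ⊢
        have e2 : xe ^ (m + 1 + 1) * (xe ^ m * (-(3 * q) * r ^ 2 + q * xe ^ (m + 1) * r ^ 3)) =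
            (xe ^ (m + 1)) ^ 2 * (-(3 * q) * r ^ 2 + q * xe ^ (m + 1) * r ^ 3) := by ring
        rw [e2]
        generalize xe ^ (m + 1) = y
        linear_combination (-(y * r) + q * y ^ 2 * r ^ 2 + q * y ^ 3 * r ^ 3) * c4
  rcases M with _ | m
  · refine ⟨1, 0, xe * k, Jt.one_mem, map_one _, Jt.mul_mem hxe hk, by ring, ?_⟩
    rw [hjk]
    ring
  · obtain ⟨kap, k', r, h3, h4, h5, -, h6, h7⟩ := main m
    exact ⟨kap, k', r, h3, h4, h5, h6, h7⟩

end Pool.Agent.FTU.H37
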