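import Pool.Agent.FTU.Stmts

/-!
# Row SYM of squad FTU: the formal operator is symmetric, up to the current
-/

set_option autoImplicit false

noncomputable section

namespace Pool.Agent.FTU.H37

open MvPolynomial Pool.Agent.FTU

theorem sym (h1 : CjaStmt) (h2 : CjbStmt) : SymStmt := by
  obtain ⟨cc, cC, cxe, cxz, cxb, -, cdz, cdb, cdt, cw0, -, -, cTT⟩ := h1
  obtain ⟨hJt, -, -, hxe, -⟩ := h2
  have hC : ∀ a : ℂ, (C a : RR) ∈ Jt := fun a => Jt.algebraMap_mem a
  intro G hG M eps u f heps
  have hce : eps - cj eps ∈ Jt := Jt.sub_mem heps (hJt eps heps).1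
  have hx2 : xe ^ 2 ∈ Jt := Jt.pow_mem hxe _
  have eI1 : (C (-(2 * Complex.I)) : RR) = -(2 * C Complex.I) := by
    rw [map_neg, C_mul, map_ofNat]
  have eI2 : (C (-Complex.I) : RR) = -C Complex.I := map_neg C _
  have cI : cj (C Complex.I) = -C Complex.I := by
    rw [cC, Complex.conj_I, map_neg]
  constructor
  · rw [← hG.gc, ← map_sub]
    have key : (cj u * D1 M eps u f + cj f * D2 M eps u f) -
        cj (cj u * D1 M eps u f + cj f * D2 M eps u f) =
        C Complex.I * (xb * (cj u * f) - 2 * dz (cj u * f)) +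
        C Complex.I * (xz * (cj f * u) - 2 * db (cj f * u)) +
        xe ^ 2 * (C Complex.I * (dt (cj f * f) - dt (cj u * u)) +
          (eps - cj eps) * (cj f * f - cj u * u)) := by
      unfold D1 D2
      rw [eI1, eI2]
      simp only [map_add, map_sub, map_mul, map_neg, map_pow, map_ofNat, cxe, cxz, cdz, cdb,
        cdt, cw0, cTT, cI, cc, Derivation.leibniz, smul_eq_mul]
      ring
    rw [key]
    have e1 : G (xb * (cj u * f) - 2 * dz (cj u * f)) = 0 := by
      rw [map_sub, ← hG.gz]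
      have e2 : (2 : RR) = C (2 : ℂ) := (map_ofNat C 2).symm
      rw [e2, hG.mul _ (hC 2), sub_self]
    have e2 : G (xz * (cj f * u) - 2 * db (cj f * u)) = 0 := by
      rw [map_sub, ← hG.gb]
      have e2 : (2 : RR) = C (2 : ℂ) := (map_ofNat C 2).symm
      rw [e2, hG.mul _ (hC 2), sub_self]
    rw [map_add, map_add, hG.mul _ (hC _), hG.mul _ (hC _), e1, e2, hG.mul _ hx2, map_add,
      hG.mul _ (hC _), hG.mul _ hce, map_sub, map_sub, hG.gt, hG.gt, map_sub]
    ring
  · rw [map_sub, ← hG.gc, ← hG.gc, map_mul cj, map_mul cj, cc, cc, mul_comm f, mul_comm u]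

end Pool.Agent.FTU.H37
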